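import Mathlib
import Pool.Agent.Helper96.HierDefs
import Pool.Agent.Helper96.HierZeta
import Pool.Agent.Helper50.HE.Limit
import Pool.Agent.Helper23.ERLower

/-!
Hierarchical long-range percolation with `5d/6 < α ≤ d`, centred by mean degree one, does not have
the scaling limit of the critical Erdős-Rényi graph, for any choice of the kernel and any `lam`,
and not even when `lam` is replaced by any sequence `lam n ≤ c L^(nd/3) / ζ_n^2`, an upper bound
which tends to infinity.

The function `f` below is a fixed bounded continuous function of the sequence of rescaled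
components: a cut-off of the mass of the largest component (of the supremum of the total masses).
Its expectation tends to zero for the hierarchical model and stays away from zero for the
Erdős-Rényi graph `G(N, 1/N + lam N^(-4/3))`, so the two sequences have no common limit in
distribution.

The hypothesis on `ζ` asks that `ζ n` is the positive solution of the defining equation whenever
`L ^ (n * d) ≥ 3`; `Pool.Agent.Helper96.HP.existsUnique_zeta` shows that this solution exists and
is unique (for `L ^ (n * d) ≤ 2` there is none).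
-/

set_option autoImplicit false

open Filter Topology
open scoped Classical

namespace Pool.Agent.Results.MP_e3f396_pr.HierNotErdosRenyi

open Pool.Agent.Helper96.HP

/-- The expectation of the test function for the Erdős-Rényi graph is bounded below. -/
theorem er_testFun (lam : ℝ) : ∃ c : ℝ, 0 < c ∧ ∀ᶠ N : ℕ in atTop,
    c ≤ graphExpect (V := Fin N) (fun _ => 1 / (N : ℝ) + lam * (N : ℝ) ^ (-(4 / 3) : ℝ))
      (fun G => testFun (scaledComponents G)) := by
  obtain ⟨c, hc, h⟩ := Pool.Agent.Helper23.ER.er_large_component lam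
  refine ⟨c, hc, ?_⟩
  have h1 : Tendsto (fun N : ℕ => 1 / (N : ℝ) + lam * (N : ℝ) ^ (-(4 / 3) : ℝ)) atTop (𝓝 0) := by
    have t1 := tendsto_one_div_atTop_nhds_zero_nat (𝕜 := ℝ)
    have t2 : Tendsto (fun N : ℕ => (N : ℝ) ^ (-(4 / 3) : ℝ)) atTop (𝓝 0) :=
      (tendsto_rpow_neg_atTop (by norm_num : (0 : ℝ) < 4 / 3)).comp tendsto_natCast_atTop_atTop
    simpa using t1.add (t2.const_mul lam)
  have h2 : Tendsto (fun N : ℕ => 1 + lam * (N : ℝ) ^ (-(1 / 3) : ℝ)) atTop (𝓝 1) := by
    have t2 : Tendsto (fun N : ℕ => (N : ℝ) ^ (-(1 / 3) : ℝ)) atTop (𝓝 0) :=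
      (tendsto_rpow_neg_atTop (by norm_num : (0 : ℝ) < 1 / 3)).comp tendsto_natCast_atTop_atTop
    simpa using (t2.const_mul lam).const_add 1
  filter_upwards [h, h1.eventually_lt_const one_pos, h2.eventually_const_lt one_pos,
    eventually_gt_atTop 0] with N hN hN1 hN2 hN0
  refine hN.trans ?_
  have hNpos : (0 : ℝ) < N := by exact_mod_cast hN0
  have e1 : 1 / (N : ℝ) + lam * (N : ℝ) ^ (-(4 / 3) : ℝ) =
      (1 + lam * (N : ℝ) ^ (-(1 / 3) : ℝ)) / N := by
    have : (N : ℝ) ^ (-(4 / 3) : ℝ) = (N : ℝ) ^ (-(1 / 3) : ℝ) / N := by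
      rw [eq_div_iff hNpos.ne']
      nth_rewrite 2 [← Real.rpow_one (N : ℝ)]
      rw [← Real.rpow_add hNpos]; norm_num
    rw [this]; ring
  refine graphExpect_mono (fun _ _ => ?_) (fun _ _ => hN1.le) fun G => ?_
  · rw [e1]; exact div_nonneg hN2.le hNpos.le
  · split_ifs with hC
    · obtain ⟨C, hC⟩ := hC
      exact one_le_testFun G C (by rwa [Fintype.card_fin])
    · exact testFun_nonneg _

/-- Let `d ≥ 1`, `L ≥ 2`, `5d/6 < α ≤ d`, let `ρ` be a kernel with `A₁ ≤ r ^ α ρ(r) ≤ A₂` for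
`r ≥ 1`, and let `ζ n` be the normalisation with mean degree one. There is a bounded function `f`
of sequences of metric measure spaces, continuous for the product of the
Gromov-Hausdorff-Prokhorov topology, with two properties. For every real `lam` its expectation at
the rescaled components of `G(N, 1/N + lam N^(-4/3))` stays above a positive constant. There is
`c > 0` such that `c L^(nd/3) / ζ_n^2` tends to infinity and the expectation of `f` at the rescaled
components of the hierarchical percolation model on `Λ_n`, with parameter `lam n`, tends to zero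
whenever `lam n ≤ c L^(nd/3) / ζ_n^2` for all large `n`; in particular for every constant `lam`. -/
theorem result (d L : ℕ) [NeZero L] (hd : 1 ≤ d) (hL : 2 ≤ L) (α A₁ A₂ : ℝ)
    (hα : 5 * (d : ℝ) / 6 < α) (hα' : α ≤ d) (hA₁ : 0 < A₁) (hA : A₁ ≤ A₂) (ρ : ℝ → ℝ)
    (_hρ0 : ρ 0 = 0) (_hρn : ∀ r, 0 ≤ r → 0 ≤ ρ r)
    (hρ : ∀ r, 1 ≤ r → A₁ ≤ r ^ α * ρ r ∧ r ^ α * ρ r ≤ A₂) (ζ : ℕ → ℝ)
    (hζ : ∀ n : ℕ, 3 ≤ L ^ (n * d) → 0 < ζ n ∧
      ∑ i ∈ Finset.Icc 1 n, ((L : ℝ) ^ d - 1) * (L : ℝ) ^ ((i - 1) * d) *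
        Real.exp (-ρ ((L : ℝ) ^ i) / ζ n) = (L : ℝ) ^ (n * d) - 2) :
    ∃ f : (ℕ → MMSpace) → ℝ, IsBoundedContinuous f ∧
      (∀ lam : ℝ, ∃ c : ℝ, 0 < c ∧ ∀ᶠ N : ℕ in atTop,
        c ≤ graphExpect (V := Fin N) (fun _ => 1 / (N : ℝ) + lam * (N : ℝ) ^ (-(4 / 3) : ℝ))
          (fun G => f (scaledComponents G))) ∧
      ∃ c : ℝ, 0 < c ∧
        Tendsto (fun n : ℕ => c * (L : ℝ) ^ ((n * d : ℝ) / 3) / ζ n ^ 2) atTop atTop ∧
        ∀ lam : ℕ → ℝ,
          (∀ᶠ n : ℕ in atTop, lam n ≤ c * (L : ℝ) ^ ((n * d : ℝ) / 3) / ζ n ^ 2) →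
          Tendsto (fun n : ℕ => graphExpect
            (edgeProb (d := d) (L := L) (n := n) ρ (ζ n) (lam n))
            (fun G => f (scaledComponents G))) atTop (𝓝 0) :=
  ⟨testFun, testFun_isBoundedContinuous, er_testFun,
    Pool.Agent.Helper50.HE.hier_shift_tendsto d L hd hL α A₁ A₂ hα hα' hA₁ hA ρ hρ ζ hζ⟩

end Pool.Agent.Results.MP_e3f396_pr.HierNotErdosRenyi
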